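import Pool.Agent.Q14.PN.PtB
import Pool.Agent.W52.AK.CNT
import Pool.Agent.W45.AK.UNI
import Pool.Agent.W822.AK.SU

/-!
# Project PN, job CNTR: the count
-/

set_option autoImplicit false
set_option linter.unusedSectionVars false

namespace Pool.Agent.Q14.PN

open NumberField IsDedekindDomain Finset Pool.Agent.H691R3 Height LinearAlgebra.Projectivization
open Pool.Agent.W232.VA Pool.Agent.W223.AK Q273.MV

/-- the combinatorial count: points, ideals and units -/
theorem card_bd {α β γ : Type} [DecidableEq β] [DecidableEq γ] [AddCommMonoid β] {n : ℕ}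
    (F : Finset α) (PP : α → Fin (n + 1) → β) (s : α → Fin (n + 1) → γ)
    (hinj : ∀ x ∈ F, ∀ y ∈ F, PP x = PP y → s x = s y → x = y)
    {N1 N2 N3 : ℝ} (h1 : 0 ≤ N1) (h2 : 0 ≤ N2)
    (c1 : ((F.image fun x => ∑ i, PP x i).card : ℝ) ≤ N1)
    (c2 : ∀ b ∈ F.image (fun x => ∑ i, PP x i),
      (((F.image PP).filter fun y => ∑ i, y i = b).card : ℝ) ≤ N2)
    (c3 : ∀ i, ((F.image fun x => s x i).card : ℝ) ≤ N3) :
    (F.card : ℝ) ≤ N1 * N2 * N3 ^ (n + 1) := by
  classical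
  have e1 : F.card = (F.image fun x => (PP x, s x)).card := by
    rw [Finset.card_image_of_injOn]
    intro x hx y hy hxy
    have h := Prod.mk.inj hxy
    exact hinj x hx y hy h.1 h.2
  have e2 : (F.image fun x => (PP x, s x)) ⊆
      (F.image PP) ×ˢ (Fintype.piFinset fun i => F.image fun x => s x i) := by
    intro z hz
    obtain ⟨x, hx, rfl⟩ := Finset.mem_image.1 hz
    rw [Finset.mem_product, Fintype.mem_piFinset]
    exact ⟨Finset.mem_image_of_mem _ hx, fun i => Finset.mem_image_of_mem _ hx⟩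
  have e3 := Finset.card_le_card e2
  rw [Finset.card_product, Fintype.card_piFinset, ← e1] at e3
  have e4 : (F.card : ℝ) ≤ ((F.image PP).card : ℝ) * ∏ i, ((F.image fun x => s x i).card : ℝ) := by
    exact_mod_cast e3
  have e5 : ∏ i, ((F.image fun x => s x i).card : ℝ) ≤ N3 ^ (n + 1) := by
    refine (Finset.prod_le_prod (fun i _ => Nat.cast_nonneg _) fun i _ => c3 i).trans ?_
    rw [Finset.prod_const, Finset.card_univ, Fintype.card_fin]
  have e6 : ((F.image PP).card : ℝ) ≤ N1 * N2 := by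
    have h4 : (F.image PP).card = ∑ b ∈ F.image (fun x => ∑ i, PP x i),
        ((F.image PP).filter fun y => ∑ i, y i = b).card := by
      refine Finset.card_eq_sum_card_fiberwise ?_
      intro y hy
      obtain ⟨x, hx, rfl⟩ := Finset.mem_image.1 hy
      exact Finset.mem_image_of_mem (fun x => ∑ i, PP x i) hx
    rw [h4]
    push_cast
    refine (Finset.sum_le_card_nsmul _ _ N2 c2).trans ?_
    rw [nsmul_eq_mul]
    exact mul_le_mul_of_nonneg_right c1 h2
  refine e4.trans ?_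
  exact mul_le_mul e6 e5 (Finset.prod_nonneg fun i _ => Nat.cast_nonneg _)
    (mul_nonneg h1 h2)

variable {K : Type} [Field K] [NumberField K] {n : ℕ}

/-- a bound for the heights of the forms at the special places -/
theorem exists_C3 (U : Finset (Pr K)) (a : Fin (n + 1) → Fin (n + 1) → K) :
    ∃ C3 : ℝ, 0 ≤ C3 ∧ ∀ p ∈ Spl U, ∀ i, |mt p * Real.log (⨆ j, av p (a i j))| ≤ C3 := by
  classical
  refine ⟨∑ p ∈ Spl U, ∑ i, |mt p * Real.log (⨆ j, av p (a i j))|,
    Finset.sum_nonneg fun p _ => Finset.sum_nonneg fun i _ => abs_nonneg _, fun p hp i => ?_⟩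
  refine le_trans ?_ (Finset.single_le_sum
    (f := fun p => ∑ i, |Pool.Agent.H691R3.mt p * Real.log (⨆ j, av p (a i j))|)
    (fun p _ => Finset.sum_nonneg fun i _ => abs_nonneg _) hp)
  exact Finset.single_le_sum (f := fun i => |Pool.Agent.H691R3.mt p * Real.log (⨆ j, av p (a i j))|)
    (fun i _ => abs_nonneg _) (Finset.mem_univ i)

/-- job CNTR -/
theorem cntr : Q273.PN.S_CNTR := by
  intro K _ _ n a hli S κ c δ hκ0 hκ hδ
  classical
  have hn0 : (0 : ℝ) ≤ n := Nat.cast_nonneg n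
  have hn1 : (0 : ℝ) < (n : ℝ) + 1 := by linarith
  have ha : ∀ i, a i ≠ 0 := fun i => hli.ne_zero i
  -- the bad primes
  have hbad : (⋃ i : Fin (n + 1), {v : Pr K | (⨆ j, fv v (a i j)) ≠ 1}).Finite :=
    Set.finite_iUnion fun i => sup_support (ha i)
  obtain ⟨U, hSU, ϖ, C, hU⟩ := Pool.Agent.W45.AK.uni (K := K) (S ∪ hbad.toFinset)
  have hS : S ⊆ U := Finset.union_subset_left hSU
  have h1 : ∀ v, v ∉ U → ∀ i, (⨆ j, fv v (a i j)) = 1 := by
    intro v hv i
    by_contra hne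
    apply hv
    apply hSU
    rw [Finset.mem_union]
    right
    rw [Set.Finite.mem_toFinset, Set.mem_iUnion]
    exact ⟨i, hne⟩
  obtain ⟨C1, hC1, hW⟩ := hW_le a ha
  obtain ⟨C2, hC2, hbds⟩ := Dat.bds U a ha
  obtain ⟨C3, hC3, h3⟩ := exists_C3 U a
  have hC : 0 ≤ C := le_trans zero_le_one hU.one_le
  obtain ⟨ε, hε⟩ : ∃ ε, ε = δ / ((n + 1) * (4 + 2 * C)) := ⟨_, rfl⟩
  have hden : 0 < ((n : ℝ) + 1) * (4 + 2 * C) := by positivity
  have hε0 : 0 < ε := by rw [hε]; positivity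
  have hεd : ε * (((n : ℝ) + 1) * (4 + 2 * C)) = δ := by
    rw [hε]
    exact div_mul_cancel₀ _ hden.ne'
  obtain ⟨D1, hD1, hcnt⟩ := Pool.Agent.W52.AK.cnt (K := K) ε hε0
  obtain ⟨D2, hD2, hfac⟩ := Pool.Agent.W52.AK.fac (K := K) (n + 1) ε hε0
  obtain ⟨D3, hD3, hsu⟩ := Pool.Agent.W822.AK.su (K := K) U ε hε0
  obtain ⟨E, hE⟩ : ∃ E : ℝ, E = (max 0 (C1 + c) + ε * ((n + 1) * C2)) + ε * ((n + 1) * C2) +
    (n + 1) * (ε * ((2 + 2 * C) * C2 + 2 * C3)) := ⟨_, rfl⟩
  refine ⟨D1 * D2 * D3 ^ (n + 1) * Real.exp E, fun B hB => ?_⟩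
  have hB0 : 0 < B := by linarith
  have hlB : 0 ≤ Real.log B := Real.log_nonneg hB
  apply Pool.Agent.H57R3.VJ.fin_of_bdd
  intro F hF
  have hmh : ∀ P : ℙ K (Fin (n + 1) → K), P.mulHeight = mulHeight P.rep := by
    intro P
    conv_lhs => rw [← P.mk_rep]
    rw [Projectivization.mulHeight_mk]
  have hex : ∀ P : ℙ K (Fin (n + 1) → K), ∃ A : Fin (n + 1) → Idl K,
      (∀ i, lin (a i) P.rep ≠ 0) → Dat U a P.rep A := by
    intro P
    by_cases h : ∀ i, lin (a i) P.rep ≠ 0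
    · obtain ⟨A, hA⟩ := exists_dat U ha P.rep_nonzero h
      exact ⟨A, fun _ => hA⟩
    · exact ⟨0, fun h' => absurd h' h⟩
  choose PP hPP using hex
  obtain ⟨X, hX⟩ : ∃ X : ℝ, X = (n + 1) * (Real.log B + C2) := ⟨_, rfl⟩
  obtain ⟨Y, hY⟩ : ∃ Y : ℝ, Y = (2 + 2 * C) * (Real.log B + C2) + 2 * C3 := ⟨_, rfl⟩
  have hX0 : 0 ≤ X := by rw [hX]; positivity
  have hY0 : 0 ≤ Y := by rw [hY]; positivity
  obtain ⟨κ', hκ'⟩ : ∃ κ' : ℝ, κ' = ((n : ℝ) + 1 - κ) * Real.log B + max 0 (C1 + c) := ⟨_, rfl⟩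
  -- facts on the points
  have hlog : ∀ P ∈ F, 0 ≤ Real.log (mulHeight P.rep) ∧
      Real.log (mulHeight P.rep) ≤ Real.log B := by
    intro P hP
    have hPB : P.mulHeight ≤ B := (hF hP).2.1
    rw [hmh] at hPB
    have h4 : 1 ≤ mulHeight P.rep := one_le_mulHeight _
    exact ⟨Real.log_nonneg h4, Real.log_le_log (by linarith) hPB⟩
  have hlin : ∀ P ∈ F, ∀ i, lin (a i) P.rep ≠ 0 := fun P hP => (hF hP).1
  have hlen : ∀ P ∈ F, ∀ i, len (PP P i) ≤ Real.log B + C2 := by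
    intro P hP i
    have h4 := (hbds P.rep (PP P) P.rep_nonzero (hlin P hP) (hPP P (hlin P hP)) i).1
    linarith [(hlog P hP).2]
  have hlenA : ∀ P ∈ F, len (∑ i, PP P i) ≤ X := by
    intro P hP
    rw [len_sum, hX]
    refine (Finset.sum_le_card_nsmul _ _ (Real.log B + C2) fun i _ => hlen P hP i).trans ?_
    rw [Finset.card_univ, Fintype.card_fin, nsmul_eq_mul]
    push_cast
    exact le_rfl
  have hrlA : ∀ P ∈ F, rl (∑ i, PP P i) ≤ κ' := by
    intro P hP
    have h4 := (hPP P (hlin P hP)).rad ha P.rep_nonzero (hlin P hP) hS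
    have h5 : N1 S a P.rep ≤ Pool.Agent.W232.VA.hW a P.rep - κ * Real.log P.mulHeight + c := (hF hP).2.2
    have h6 := hW P.rep P.rep_nonzero (hlin P hP)
    rw [hmh] at h5
    have h7 := hlog P hP
    have h8 : ((n : ℝ) + 1 - κ) * Real.log (mulHeight P.rep) ≤ ((n : ℝ) + 1 - κ) * Real.log B :=
      mul_le_mul_of_nonneg_left h7.2 (by linarith)
    have h9 := le_max_right 0 (C1 + c)
    rw [hκ']
    linarith
  have hmain := card_bd F PP (fun P => sun ϖ a P.rep (PP P))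
    (fun P hP Q hQ h4 h5 => eq_of_dat hli hU (hlin P hP) (hlin Q hQ) h4 fun i => congrFun h5 i)
    (N1 := D1 * Real.exp (κ' + ε * X)) (N2 := D2 * Real.exp (ε * X))
    (N3 := D3 * Real.exp (ε * Y)) (by positivity) (by positivity) ?_ ?_ ?_
  · refine hmain.trans (le_of_eq ?_)
    have hB' : B ^ ((n : ℝ) + 1 - κ + δ) = Real.exp (((n : ℝ) + 1 - κ + δ) * Real.log B) := by
      rw [Real.rpow_def_of_pos hB0, mul_comm]
    rw [hB', mul_pow, ← Real.exp_nat_mul]
    have h4 : D1 * Real.exp (κ' + ε * X) * (D2 * Real.exp (ε * X)) *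
        (D3 ^ (n + 1) * Real.exp (((n + 1 : ℕ) : ℝ) * (ε * Y))) =
        D1 * D2 * D3 ^ (n + 1) * (Real.exp (κ' + ε * X) * Real.exp (ε * X) *
          Real.exp (((n + 1 : ℕ) : ℝ) * (ε * Y))) := by ring
    have h5 : D1 * D2 * D3 ^ (n + 1) * Real.exp E *
        Real.exp (((n : ℝ) + 1 - κ + δ) * Real.log B) =
        D1 * D2 * D3 ^ (n + 1) * (Real.exp E *
          Real.exp (((n : ℝ) + 1 - κ + δ) * Real.log B)) := by ring
    rw [h4, h5, ← Real.exp_add, ← Real.exp_add, ← Real.exp_add]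
    congr 2
    rw [hκ', hX, hY, hE]
    push_cast
    linear_combination Real.log B * hεd
  · refine hcnt X κ' _ hX0 fun b hb => ?_
    obtain ⟨P, hP, rfl⟩ := Finset.mem_image.1 hb
    exact ⟨hrlA P hP, hlenA P hP⟩
  · intro b hb
    refine (hfac b _ fun y hy => (Finset.mem_filter.1 hy).2).trans ?_
    obtain ⟨P, hP, rfl⟩ := Finset.mem_image.1 hb
    refine mul_le_mul_of_nonneg_left (Real.exp_le_exp.2 ?_) hD2.le
    exact mul_le_mul_of_nonneg_left (hlenA P hP) hε0.le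
  · intro i
    refine hsu Y _ hY0 fun y hy => ?_
    obtain ⟨P, hP, rfl⟩ := Finset.mem_image.1 hy
    have hD := hPP P (hlin P hP)
    refine ⟨sun_ne hU (hlin P hP) i, fun v hv => ?_, fun p hp => ?_⟩
    · exact sun_off hU hD ha P.rep_nonzero (hlin P hP) h1 i hv
    · rw [hY]
      refine sun_spec hU hD ha P.rep_nonzero (hlin P hP) (fun i => hlen P hP i) hp ?_
        (fun i => h3 p hp i) i
      intro i
      have h4 := (hbds P.rep (PP P) P.rep_nonzero (hlin P hP) hD i).2 p hp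
      linarith [(hlog P hP).2]

end Pool.Agent.Q14.PN
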