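import Pool.Agent.Q273.PN.Stm
import Pool.Agent.Q273.MV.Loc2
import Pool.Agent.W223.AK.Basic

/-!
# Project PN, job CNTR, part A: the ideals of a point with respect to independent hyperplanes
-/

set_option autoImplicit false
set_option linter.unusedSectionVars false

namespace Pool.Agent.Q14.PN

open NumberField IsDedekindDomain Finset Pool.Agent.H691R3 Height LinearAlgebra.Projectivization
open Pool.Agent.W232.VA Pool.Agent.W223.AK Q273.MV

variable {K : Type} [Field K] [NumberField K] {n : ℕ}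

/-- the data of a point `x` with respect to the hyperplanes `a` outside `U` -/
structure Dat (U : Finset (Pr K)) (a : Fin (n + 1) → Fin (n + 1) → K) (x : Fin (n + 1) → K)
    (P : Fin (n + 1) → Idl K) : Prop where
  off : ∀ i, OffS U (P i)
  val : ∀ i v, v ∉ U → Pool.Agent.W232.VA.lam (fv v) (a i) x = (P i v : ℝ) * Real.log (Nv v)

theorem exists_dat (U : Finset (Pr K)) {a : Fin (n + 1) → Fin (n + 1) → K} (ha : ∀ i, a i ≠ 0)
    {x : Fin (n + 1) → K} (hx : x ≠ 0) (hl : ∀ i, lin (a i) x ≠ 0) :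
    ∃ P : Fin (n + 1) → Idl K, Dat U a x P := by
  classical
  have hex : ∀ (i : Fin (n + 1)) (v : Pr K), ∃ k : ℕ,
      Pool.Agent.W232.VA.lam (fv v) (a i) x = k * Real.log (Nv v) := fun i v =>
    lam_fin v (ha i) hx (hl i)
  choose k hk using hex
  have hfin : ∀ i, (Function.support fun v : Pr K => if v ∈ U then 0 else k i v).Finite := by
    intro i
    refine (lam_support (ha i) hx (hl i)).subset ?_
    intro v hv h0
    rw [Function.mem_support] at hv
    apply hv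
    split_ifs with h
    · rfl
    · have h1 := hk i v
      rw [h0] at h1
      have h2 := log_Nv_pos v
      rcases mul_eq_zero.1 h1.symm with h3 | h3
      · exact_mod_cast h3
      · exact absurd h3 h2.ne'
  refine ⟨fun i => Finsupp.ofSupportFinite _ (hfin i), ⟨?_, ?_⟩⟩
  · intro i v hv
    show (if v ∈ U then 0 else k i v) = 0
    rw [if_pos hv]
  · intro i v hv
    have h1 : (Finsupp.ofSupportFinite _ (hfin i)) v = k i v := by
      show (if v ∈ U then 0 else k i v) = _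
      rw [if_neg hv]
    rw [h1]
    exact hk i v

section D

variable {U : Finset (Pr K)} {a : Fin (n + 1) → Fin (n + 1) → K} {x : Fin (n + 1) → K}
  {P : Fin (n + 1) → Idl K}

theorem Dat.pos (hP : Dat U a x P) {i : Fin (n + 1)} {v : Pr K} (h : P i v ≠ 0) :
    v ∉ U ∧ 0 < Pool.Agent.W232.VA.lam (fv v) (a i) x := by
  have hv : v ∉ U := fun hv => h (hP.off i v hv)
  refine ⟨hv, ?_⟩
  rw [hP.val i v hv]
  have h1 : (0 : ℝ) < (P i v : ℝ) := by exact_mod_cast Nat.pos_of_ne_zero h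
  exact mul_pos h1 (log_Nv_pos v)

/-- the sum formula -/
theorem Dat.sum (hP : Dat U a x P) (ha : ∀ i, a i ≠ 0) (hx : x ≠ 0)
    (hl : ∀ i, lin (a i) x ≠ 0) (i : Fin (n + 1)) :
    len (P i) + ∑ p ∈ Spl U, mt p * Pool.Agent.W232.VA.lam (av p) (a i) x =
      Real.log (mulHeight (a i)) + Real.log (mulHeight x) := by
  classical
  obtain ⟨T, hT⟩ := exists_T ha hx hl
  have hT' : ∀ v ∉ U ∪ T, Pool.Agent.W232.VA.lam (fv v) (a i) x = 0 := fun v hv =>
    hT v (fun h => hv (Finset.mem_union_right _ h)) i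
  have h1 := sum_lam' (ha i) hx (hl i) (U ∪ T) hT'
  have hsupp : (P i).support ⊆ T \ U := by
    intro v hv
    rw [Finsupp.mem_support_iff] at hv
    obtain ⟨h2, h3⟩ := hP.pos hv
    rw [Finset.mem_sdiff]
    refine ⟨?_, h2⟩
    by_contra h4
    rw [hT v h4 i] at h3
    exact lt_irrefl _ h3
  rw [len_eq_sum hsupp, sum_Spl]
  have h2 : ∑ v ∈ U ∪ T, Pool.Agent.W232.VA.lam (fv v) (a i) x =
      ∑ v ∈ U, Pool.Agent.W232.VA.lam (fv v) (a i) x +
        ∑ v ∈ T \ U, Pool.Agent.W232.VA.lam (fv v) (a i) x := by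
    rw [← Finset.sum_union Finset.disjoint_sdiff, Finset.union_sdiff_self_eq_union]
  have h3 : ∑ v ∈ T \ U, Pool.Agent.W232.VA.lam (fv v) (a i) x =
      ∑ v ∈ T \ U, (P i v : ℝ) * Real.log (Nv v) :=
    Finset.sum_congr rfl fun v hv => hP.val i v (Finset.mem_sdiff.1 hv).2
  rw [h2, h3] at h1
  simp only [mt_inl, mt_inr, av_inr, one_mul]
  have h4 : ∑ w : InfinitePlace K, (w.mult : ℝ) *
      Pool.Agent.W232.VA.lam (av (Sum.inl w : Pl K)) (a i) x =
      ∑ w : InfinitePlace K, (w.mult : ℝ) * Pool.Agent.W232.VA.lam w.1 (a i) x := rfl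
  rw [h4]
  linarith

/-- the radical of the product of the ideals -/
theorem Dat.rad (hP : Dat U a x P) (ha : ∀ i, a i ≠ 0) (hx : x ≠ 0)
    (hl : ∀ i, lin (a i) x ≠ 0) {S : Finset (Pr K)} (hS : S ⊆ U) :
    rl (∑ i, P i) ≤ N1 S a x := by
  classical
  obtain ⟨T, hT⟩ := exists_T ha hx hl
  rw [N1_eq S hT]
  have hne : ∀ v, v ∈ (∑ i, P i).support → ∃ i, P i v ≠ 0 := by
    intro v hv
    rw [Finsupp.mem_support_iff, Finsupp.finsetSum_apply] at hv
    by_contra hcon
    push Not at hcon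
    exact hv (Finset.sum_eq_zero fun i _ => hcon i)
  have hsub : (∑ i, P i).support ⊆ T := by
    intro v hv
    obtain ⟨i, hi⟩ := hne v hv
    obtain ⟨h2, h3⟩ := hP.pos hi
    by_contra h4
    rw [hT v h4 i] at h3
    exact lt_irrefl _ h3
  unfold rl
  refine le_trans ?_ (Finset.sum_le_sum_of_subset_of_nonneg hsub fun v _ _ =>
    ind_nonneg S a x v)
  refine Finset.sum_le_sum fun v hv => ?_
  obtain ⟨i, hi⟩ := hne v hv
  obtain ⟨h2, h3⟩ := hP.pos hi
  unfold ind
  rw [if_pos ⟨fun h => h2 (hS h), i, h3⟩]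

/-- the order of the quotients of the forms -/
theorem Dat.ord (hP : Dat U a x P) (ha : ∀ i, a i ≠ 0) (hx : x ≠ 0)
    (hl : ∀ i, lin (a i) x ≠ 0) (h1 : ∀ v, v ∉ U → ∀ i, (⨆ j, fv v (a i j)) = 1)
    (i : Fin (n + 1)) {v : Pr K} (hv : v ∉ U) :
    fv v (lin (a i) x / lin (a 0) x) = (Nv v) ^ ((P 0 v : ℤ) - (P i v : ℤ)) := by
  have e : ∀ i, Real.log (fv v (lin (a i) x)) = Real.log (⨆ j, fv v (x j)) -
      (P i v : ℝ) * Real.log (Nv v) := by
    intro i
    have h2 := hP.val i v hv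
    rw [Q273.MV.lam_eq (fv v) (ha i) hx (hl i), h1 v hv i, Real.log_one] at h2
    linarith
  have hN := Nv_pos v
  have hp : 0 < fv v (lin (a i) x / lin (a 0) x) := (fv v).pos (div_ne_zero (hl i) (hl 0))
  refine Real.log_injOn_pos (Set.mem_Ioi.2 hp) (Set.mem_Ioi.2 (zpow_pos hN _)) ?_
  rw [map_div₀, Real.log_div ((fv v).pos (hl i)).ne' ((fv v).pos (hl 0)).ne', e i, e 0,
    Real.log_zpow]
  push_cast
  ring

end D

/-- the height of the arrangement -/
theorem hW_le (a : Fin (n + 1) → Fin (n + 1) → K) (ha : ∀ i, a i ≠ 0) :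
    ∃ C : ℝ, 0 ≤ C ∧ ∀ x : Fin (n + 1) → K, x ≠ 0 → (∀ i, lin (a i) x ≠ 0) →
      hW a x ≤ ((n : ℝ) + 1) * Real.log (mulHeight x) + C := by
  classical
  have hn0 : (0 : ℝ) ≤ n := Nat.cast_nonneg n
  have hlog : 0 ≤ Real.log ((n : ℝ) + 1) := Real.log_nonneg (by linarith)
  have hH0 : ∀ i, 0 ≤ Real.log (mulHeight (a i)) := fun i =>
    Real.log_nonneg (one_le_mulHeight _)
  refine ⟨∑ i, Real.log (mulHeight (a i)) + (Module.finrank ℚ K : ℝ) *
    (((n : ℝ) + 1) * Real.log ((n : ℝ) + 1)), ?_, ?_⟩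
  · have h1 : 0 ≤ ∑ i, Real.log (mulHeight (a i)) := Finset.sum_nonneg fun i _ => hH0 i
    have h2 : 0 ≤ (Module.finrank ℚ K : ℝ) * (((n : ℝ) + 1) * Real.log ((n : ℝ) + 1)) := by
      positivity
    linarith
  · intro x hx hl
    obtain ⟨T, hT⟩ := exists_T ha hx hl
    rw [hW_eq' hT]
    have h1 : ∀ w : InfinitePlace K, wt w.1 a x ≤
        ∑ i, Pool.Agent.W232.VA.lam w.1 (a i) x + ((n : ℝ) + 1) * Real.log ((n : ℝ) + 1) := by
      intro w
      obtain ⟨I, _, hI⟩ := wt_att w.1 a x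
      rw [hI]
      have h2 : ∑ i ∈ I, Pool.Agent.W232.VA.lam w.1 (a i) x ≤
          ∑ i ∈ I, (Pool.Agent.W232.VA.lam w.1 (a i) x + Real.log ((n : ℝ) + 1)) :=
        Finset.sum_le_sum fun i _ => by linarith
      have h3 : ∑ i ∈ I, (Pool.Agent.W232.VA.lam w.1 (a i) x + Real.log ((n : ℝ) + 1)) ≤
          ∑ i, (Pool.Agent.W232.VA.lam w.1 (a i) x + Real.log ((n : ℝ) + 1)) :=
        Finset.sum_le_sum_of_subset_of_nonneg (Finset.subset_univ I) fun i _ _ => by
          have := lam_arch_ge w (ha i) hx (hl i)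
          linarith
      have h4 : ∑ i, (Pool.Agent.W232.VA.lam w.1 (a i) x + Real.log ((n : ℝ) + 1)) =
          ∑ i, Pool.Agent.W232.VA.lam w.1 (a i) x + ((n : ℝ) + 1) * Real.log ((n : ℝ) + 1) := by
        rw [Finset.sum_add_distrib, Finset.sum_const, Finset.card_univ, Fintype.card_fin,
          nsmul_eq_mul]
        push_cast
        ring
      linarith
    have h2 : ∀ v : Pr K, wt (fv v) a x ≤ ∑ i, Pool.Agent.W232.VA.lam (fv v) (a i) x := by
      intro v
      obtain ⟨I, _, hI⟩ := wt_att (fv v) a x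
      rw [hI]
      exact Finset.sum_le_sum_of_subset_of_nonneg (Finset.subset_univ I) fun i _ _ =>
        lam_fin_nonneg v (ha i) hx (hl i)
    have h3 : ∑ w : InfinitePlace K, (w.mult : ℝ) * wt w.1 a x ≤
        ∑ w : InfinitePlace K, (w.mult : ℝ) * (∑ i, Pool.Agent.W232.VA.lam w.1 (a i) x +
          ((n : ℝ) + 1) * Real.log ((n : ℝ) + 1)) :=
      Finset.sum_le_sum fun w _ => mul_le_mul_of_nonneg_left (h1 w) (Nat.cast_nonneg _)
    have h4 : ∑ w : InfinitePlace K, (w.mult : ℝ) * (∑ i, Pool.Agent.W232.VA.lam w.1 (a i) x +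
          ((n : ℝ) + 1) * Real.log ((n : ℝ) + 1)) =
        ∑ i, ∑ w : InfinitePlace K, (w.mult : ℝ) * Pool.Agent.W232.VA.lam w.1 (a i) x +
          (Module.finrank ℚ K : ℝ) * (((n : ℝ) + 1) * Real.log ((n : ℝ) + 1)) := by
      rw [← sum_mult_real, Finset.sum_mul, Finset.sum_comm, ← Finset.sum_add_distrib]
      refine Finset.sum_congr rfl fun w _ => ?_
      rw [mul_add, Finset.mul_sum]
    have h5 : ∑ v ∈ T, wt (fv v) a x ≤
        ∑ i, ∑ v ∈ T, Pool.Agent.W232.VA.lam (fv v) (a i) x := by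
      rw [Finset.sum_comm]
      exact Finset.sum_le_sum fun v _ => h2 v
    have h6 : ∑ i, (∑ w : InfinitePlace K, (w.mult : ℝ) * Pool.Agent.W232.VA.lam w.1 (a i) x +
        ∑ v ∈ T, Pool.Agent.W232.VA.lam (fv v) (a i) x) =
        ∑ i, (Real.log (mulHeight (a i)) + Real.log (mulHeight x)) :=
      Finset.sum_congr rfl fun i _ => sum_lam' (ha i) hx (hl i) T fun v hv => hT v hv i
    rw [Finset.sum_add_distrib, Finset.sum_add_distrib, Finset.sum_const, Finset.card_univ,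
      Fintype.card_fin, nsmul_eq_mul] at h6
    push_cast at h6
    linarith

/-- lower bound for the local heights at the special places -/
theorem lam_spl_ge {a x : Fin (n + 1) → K} (ha : a ≠ 0) (hx : x ≠ 0)
    (hl : lin a x ≠ 0) (p : Pl K) :
    -(2 * Real.log ((n : ℝ) + 1)) ≤ mt p * Pool.Agent.W232.VA.lam (av p) a x := by
  have hn0 : (0 : ℝ) ≤ n := Nat.cast_nonneg n
  have hlog : 0 ≤ Real.log ((n : ℝ) + 1) := Real.log_nonneg (by linarith)
  rcases p with w | v
  · have h1 := lam_arch_ge w ha hx hl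
    have h2 : (w.mult : ℝ) ≤ 2 := by
      rcases InfinitePlace.isReal_or_isComplex w with hw | hw
      · rw [InfinitePlace.mult, if_pos hw]; norm_num
      · rw [InfinitePlace.mult, if_neg (InfinitePlace.not_isReal_iff_isComplex.mpr hw)]; norm_num
    have h3 : (0 : ℝ) ≤ w.mult := Nat.cast_nonneg _
    have h4 : (w.mult : ℝ) * -Real.log ((n : ℝ) + 1) ≤
        (w.mult : ℝ) * Pool.Agent.W232.VA.lam w.1 a x := mul_le_mul_of_nonneg_left h1 h3
    have h5 : mt (Sum.inl w : Pl K) * Pool.Agent.W232.VA.lam (av (Sum.inl w : Pl K)) a x =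
        (w.mult : ℝ) * Pool.Agent.W232.VA.lam w.1 a x := rfl
    rw [h5]
    nlinarith
  · have h1 := lam_fin_nonneg v ha hx hl
    have h5 : mt (Sum.inr v : Pl K) * Pool.Agent.W232.VA.lam (av (Sum.inr v : Pl K)) a x =
        1 * Pool.Agent.W232.VA.lam (fv v) a x := rfl
    rw [h5]
    linarith

/-- the bounds for the ideals and for the local heights at the special places -/
theorem Dat.bds (U : Finset (Pr K)) (a : Fin (n + 1) → Fin (n + 1) → K) (ha : ∀ i, a i ≠ 0) :
    ∃ C : ℝ, 0 ≤ C ∧ ∀ (x : Fin (n + 1) → K) (P : Fin (n + 1) → Idl K), x ≠ 0 →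
      (∀ i, lin (a i) x ≠ 0) → Dat U a x P → ∀ i,
      len (P i) ≤ Real.log (mulHeight x) + C ∧
      ∀ p ∈ Spl U, |mt p * Pool.Agent.W232.VA.lam (av p) (a i) x| ≤
        Real.log (mulHeight x) + C := by
  classical
  have hn0 : (0 : ℝ) ≤ n := Nat.cast_nonneg n
  have hlog : 0 ≤ Real.log ((n : ℝ) + 1) := Real.log_nonneg (by linarith)
  have hH0 : ∀ i, 0 ≤ Real.log (mulHeight (a i)) := fun i =>
    Real.log_nonneg (one_le_mulHeight _)
  obtain ⟨c, hc⟩ : ∃ c, c = 2 * Real.log ((n : ℝ) + 1) := ⟨_, rfl⟩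
  have hc0 : 0 ≤ c := by rw [hc]; positivity
  have hcard : (0 : ℝ) ≤ ((Spl U).card : ℝ) := Nat.cast_nonneg _
  refine ⟨∑ i, Real.log (mulHeight (a i)) + (Spl U).card * c + c, ?_, ?_⟩
  · have h1 : 0 ≤ ∑ i, Real.log (mulHeight (a i)) := Finset.sum_nonneg fun i _ => hH0 i
    have h2 : 0 ≤ ((Spl U).card : ℝ) * c := mul_nonneg hcard hc0
    linarith
  · intro x P hx hl hP i
    have h0 : 0 ≤ Real.log (mulHeight x) := Real.log_nonneg (one_le_mulHeight _)
    have hs := hP.sum ha hx hl i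
    have hi : Real.log (mulHeight (a i)) ≤ ∑ i, Real.log (mulHeight (a i)) :=
      Finset.single_le_sum (f := fun i => Real.log (mulHeight (a i))) (fun i _ => hH0 i)
        (Finset.mem_univ i)
    have hge : ∀ p : Pl K, 0 ≤ mt p * Pool.Agent.W232.VA.lam (av p) (a i) x + c := fun p => by
      have := lam_spl_ge (ha i) hx (hl i) p
      rw [hc]
      linarith
    have hsum : ∑ p ∈ Spl U, (mt p * Pool.Agent.W232.VA.lam (av p) (a i) x + c) =
        ∑ p ∈ Spl U, mt p * Pool.Agent.W232.VA.lam (av p) (a i) x + (Spl U).card * c := by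
      rw [Finset.sum_add_distrib, Finset.sum_const, nsmul_eq_mul]
    have hlen := len_nonneg (P i)
    have hnn : 0 ≤ ∑ p ∈ Spl U, (mt p * Pool.Agent.W232.VA.lam (av p) (a i) x + c) :=
      Finset.sum_nonneg fun p _ => hge p
    refine ⟨by linarith, fun p hp => ?_⟩
    have h1 : mt p * Pool.Agent.W232.VA.lam (av p) (a i) x + c ≤
        ∑ p ∈ Spl U, (mt p * Pool.Agent.W232.VA.lam (av p) (a i) x + c) :=
      Finset.single_le_sum
        (f := fun p => Pool.Agent.H691R3.mt p * Pool.Agent.W232.VA.lam (av p) (a i) x + c)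
        (fun p _ => hge p) hp
    have h2 := hge p
    have h3 : 0 ≤ ((Spl U).card : ℝ) * c := mul_nonneg hcard hc0
    rw [abs_le]
    constructor
    · linarith [hH0 i]
    · linarith

end Pool.Agent.Q14.PN
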