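import Pool.Agent.Q14.PN.PtA

/-!
# Project PN, job CNTR, part B: the units of a point, and injectivity
-/

set_option autoImplicit false
set_option linter.unusedSectionVars false

namespace Pool.Agent.Q14.PN

open NumberField IsDedekindDomain Finset Pool.Agent.H691R3 Height LinearAlgebra.Projectivization
open Pool.Agent.W232.VA Pool.Agent.W223.AK Q273.MV

variable {K : Type} [Field K] [NumberField K] {n : ℕ}

/-- finitely many primes are bad for a nonzero vector -/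
theorem sup_support {z : Fin (n + 1) → K} (hz : z ≠ 0) :
    {v : Pr K | (⨆ j, fv v (z j)) ≠ 1}.Finite := by
  have h1 : (⋃ j ∈ {j : Fin (n + 1) | z j ≠ 0}, {v : Pr K | fv v (z j) ≠ 1}).Finite :=
    Set.Finite.biUnion (Set.toFinite _) fun j hj => fv_support_finite hj
  refine h1.subset ?_
  intro v hv
  by_contra hne
  apply hv
  simp only [Set.mem_iUnion, Set.mem_ofPred_eq, not_exists, not_not] at hne
  obtain ⟨k, hk⟩ := sup_att (fv v) z
  have hpos := sup_pos (fv v) hz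
  rw [hk] at hpos ⊢
  refine hne k ?_
  intro h0
  rw [h0, map_zero] at hpos
  exact lt_irrefl _ hpos

/-- the unit attached to the quotient of two forms -/
noncomputable def sun (ϖ : Pr K → K) (a : Fin (n + 1) → Fin (n + 1) → K) (x : Fin (n + 1) → K)
    (P : Fin (n + 1) → Idl K) (i : Fin (n + 1)) : K :=
  lin (a i) x / lin (a 0) x * (gen ϖ (P 0) / gen ϖ (P i))

section D

variable {U : Finset (Pr K)} {a : Fin (n + 1) → Fin (n + 1) → K} {x : Fin (n + 1) → K}
  {P : Fin (n + 1) → Idl K} {ϖ : Pr K → K} {C : ℝ}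

theorem sun_ne (hU : Unif U ϖ C) (hl : ∀ i, lin (a i) x ≠ 0) (i : Fin (n + 1)) :
    sun ϖ a x P i ≠ 0 :=
  mul_ne_zero (div_ne_zero (hl i) (hl 0)) (div_ne_zero (gen_ne hU _) (gen_ne hU _))

theorem sun_off (hU : Unif U ϖ C) (hP : Dat U a x P) (ha : ∀ i, a i ≠ 0) (hx : x ≠ 0)
    (hl : ∀ i, lin (a i) x ≠ 0) (h1 : ∀ v, v ∉ U → ∀ i, (⨆ j, fv v (a i j)) = 1)
    (i : Fin (n + 1)) {v : Pr K} (hv : v ∉ U) : fv v (sun ϖ a x P i) = 1 := by
  have hN := (Nv_pos v).ne'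
  unfold sun
  rw [map_mul, hP.ord ha hx hl h1 i hv, map_div₀, fv_gen hU (hP.off 0) hv,
    fv_gen hU (hP.off i) hv, ← zpow_sub₀ hN, ← zpow_add₀ hN]
  have h2 : ((P 0 v : ℤ) - (P i v : ℤ)) + (-(P 0 v : ℤ) - -(P i v : ℤ)) = 0 := by ring
  rw [h2, zpow_zero]

theorem sun_spec (hU : Unif U ϖ C) (hP : Dat U a x P) (ha : ∀ i, a i ≠ 0) (hx : x ≠ 0)
    (hl : ∀ i, lin (a i) x ≠ 0) {Y C3 : ℝ} (hlen : ∀ i, len (P i) ≤ Y) {p : Pl K}
    (hp : p ∈ Spl U) (hb : ∀ i, |mt p * Pool.Agent.W232.VA.lam (av p) (a i) x| ≤ Y)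
    (h3 : ∀ i, |mt p * Real.log (⨆ j, av p (a i j))| ≤ C3) (i : Fin (n + 1)) :
    |mt p * Real.log (av p (sun ϖ a x P i))| ≤ (2 + 2 * C) * Y + 2 * C3 := by
  have hC : 0 ≤ C := le_trans zero_le_one hU.one_le
  have e : ∀ i, mt p * Real.log (av p (lin (a i) x)) = mt p * Real.log (⨆ j, av p (a i j)) +
      mt p * Real.log (⨆ j, av p (x j)) - mt p * Pool.Agent.W232.VA.lam (av p) (a i) x := by
    intro i
    rw [Q273.MV.lam_eq (av p) (ha i) hx (hl i)]
    ring
  have hq : ∀ {y : K}, y ≠ 0 → av p y ≠ 0 := fun hy => ((av p).pos hy).ne'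
  have e2 : mt p * Real.log (av p (sun ϖ a x P i)) =
      mt p * Real.log (av p (lin (a i) x)) - mt p * Real.log (av p (lin (a 0) x)) +
        (mt p * Real.log (av p (gen ϖ (P 0))) - mt p * Real.log (av p (gen ϖ (P i)))) := by
    unfold sun
    rw [map_mul, map_div₀, map_div₀, Real.log_mul (div_ne_zero (hq (hl i)) (hq (hl 0)))
      (div_ne_zero (hq (gen_ne hU _)) (hq (gen_ne hU _))), Real.log_div (hq (hl i)) (hq (hl 0)),
      Real.log_div (hq (gen_ne hU _)) (hq (gen_ne hU _))]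
    ring
  rw [e2, e i, e 0]
  have g0 := (spec_gen hU (hP.off 0) hp).trans (mul_le_mul_of_nonneg_left (hlen 0) hC)
  have gi := (spec_gen hU (hP.off i) hp).trans (mul_le_mul_of_nonneg_left (hlen i) hC)
  have b0 := hb 0
  have bi := hb i
  have c0 := h3 0
  have ci := h3 i
  rw [abs_le] at g0 gi b0 bi c0 ci ⊢
  constructor
  · linarith [g0.1, gi.2, b0.1, bi.2, c0.2, ci.1]
  · linarith [g0.2, gi.1, b0.2, bi.1, c0.1, ci.2]

end D

/-- a point is determined by the values of the forms, up to a scalar -/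
theorem eq_of_forms {a : Fin (n + 1) → Fin (n + 1) → K} (ha : LinearIndependent K a)
    {P Q : ℙ K (Fin (n + 1) → K)} (hP : ∀ i, lin (a i) P.rep ≠ 0)
    (hQ : ∀ i, lin (a i) Q.rep ≠ 0)
    (h : ∀ i, lin (a i) P.rep / lin (a 0) P.rep = lin (a i) Q.rep / lin (a 0) Q.rep) :
    P = Q := by
  obtain ⟨t, ht⟩ : ∃ t, t = lin (a 0) P.rep / lin (a 0) Q.rep := ⟨_, rfl⟩
  have h1 : ∀ i, lin (a i) (t • Q.rep) = lin (a i) P.rep := by
    intro i
    rw [lin_smul_right, ht]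
    have h2 := h i
    rw [div_eq_div_iff (hP 0) (hQ 0)] at h2
    field_simp [hQ 0]
    linear_combination -h2
  have hu : IsUnit (Matrix.of a) := by
    rw [← Matrix.linearIndependent_rows_iff_isUnit]
    exact ha
  have hinj := Matrix.mulVec_injective_iff_isUnit.2 hu
  have h3 : t • Q.rep = P.rep := by
    apply hinj
    funext i
    exact h1 i
  rw [← P.mk_rep, ← Q.mk_rep]
  exact (Projectivization.mk_eq_mk_iff' K _ _ P.rep_nonzero Q.rep_nonzero).mpr ⟨t, h3⟩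

/-- the data determine the point -/
theorem eq_of_dat {a : Fin (n + 1) → Fin (n + 1) → K} (ha : LinearIndependent K a)
    {U : Finset (Pr K)} {ϖ : Pr K → K} {C : ℝ} (hU : Unif U ϖ C)
    {P Q : ℙ K (Fin (n + 1) → K)} (hP : ∀ i, lin (a i) P.rep ≠ 0)
    (hQ : ∀ i, lin (a i) Q.rep ≠ 0) {A A' : Fin (n + 1) → Idl K} (hA : A = A')
    (h : ∀ i, sun ϖ a P.rep A i = sun ϖ a Q.rep A' i) : P = Q := by
  subst hA
  refine eq_of_forms ha hP hQ fun i => ?_
  exact mul_right_cancel₀ (div_ne_zero (gen_ne hU (A 0)) (gen_ne hU (A i))) (h i)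

end Pool.Agent.Q14.PN
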